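import Pool.Agent.KK.StmtsV

/-!
# Squad KK, row PST: a pass is a loop of four periods
-/

set_option autoImplicit false

namespace Pool.Agent.KK.H55

/-! ### elementary facts on `wt` and `per` -/

theorem wt_append (u v : List Bool) : wt (u ++ v) = wt u + wt v := List.count_append ..

theorem per_length (w : List Bool) (a m : ℕ) : (per w a m).length = m := by
  simp [per]

theorem per_add (w : List Bool) (a m m' : ℕ) :
    per w a (m + m') = per w a m ++ per w (a + m) m' := by
  unfold per
  rw [List.range_add, List.map_append, List.map_map]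
  congr 1
  apply List.map_congr_left
  intro i _
  rw [Function.comp, Nat.add_assoc]

theorem per_one (w : List Bool) (a : ℕ) : per w a 1 = [w.getD (a % w.length) false] := by
  simp [per]

theorem per_period (w : List Bool) (a m : ℕ) : per w (a + w.length) m = per w a m := by
  unfold per
  apply List.map_congr_left
  intro i _
  rw [show a + w.length + i = a + i + w.length by omega, Nat.add_mod_right]

theorem per_period_mul (w : List Bool) (a m n : ℕ) :
    per w (a + n * w.length) m = per w a m := by
  induction n with
  | zero => rw [Nat.zero_mul, Nat.add_zero]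
  | succ n ih =>
    rw [show a + (n + 1) * w.length = a + n * w.length + w.length by ring, per_period, ih]

theorem wt_per_mul (hPWT : PwtStmt) (w : List Bool) (a n : ℕ) :
    wt (per w a (n * w.length)) = n * wt w := by
  induction n with
  | zero => simp [per, wt]
  | succ n ih =>
    rw [show (n + 1) * w.length = n * w.length + w.length by ring, per_add, wt_append, ih,
      hPWT.1]
    ring

/-- a class with the letter `b` -/
theorem exists_class (w : List Bool) (b : Bool) (h1 : 1 ≤ wt w) (h2 : wt w + 1 ≤ w.length) :
    ∃ i, i < w.length ∧ w.getD i false = b := by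
  have hmem : b ∈ w := by
    cases b with
    | true => exact List.count_pos_iff.1 h1
    | false =>
      by_contra hb
      have h3 : List.count true w = w.length := by
        rw [List.count_eq_length]
        intro c hc
        cases c with
        | true => rfl
        | false => exact absurd hc hb
      unfold wt at h2
      omega
  obtain ⟨i, hi, he⟩ := List.mem_iff_getElem.1 hmem
  exact ⟨i, hi, by rw [List.getD_eq_getElem _ _ hi, he]⟩

theorem pst (hREL : RelStmt) (hCMO : CmoStmt) (hTKR : TkrStmt) (hPER : PerStmt)
    (hPWT : PwtStmt) : PstStmt := by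
  intro V _ _ H X k p t ε K K' w v hk hFW hw hwt ht1 htk htp hP hK hK0
  set b := decide (v ∈ X) with hb
  obtain ⟨i, hi, hib⟩ := exists_class w b (by omega) (by omega)
  rw [hw] at hi
  have hik : i % k = i := Nat.mod_eq_of_lt hi
  set m := per w (i + 1) (k - 1) with hm
  have hml : m.length = k - 1 := per_length ..
  -- the word from the class `i`
  have f0 : per w i k = b :: m := by
    have hk' : k = 1 + (k - 1) := by omega
    have g1 : per w i k = per w i (1 + (k - 1)) := by rw [← hk']
    rw [g1, per_add, per_one, hw, hik, hib]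
    rfl
  have f1 : per w (i + 1) k = m ++ [b] := by
    have hk' : k = (k - 1) + 1 := by omega
    have g1 : per w (i + 1) k = per w (i + 1) ((k - 1) + 1) := by rw [← hk']
    rw [g1, per_add, per_one, hw, show i + 1 + (k - 1) = i + k by omega, Nat.add_mod_right, hik,
      hib]
  have hwm : wt (b :: m) = t := by
    rw [← f0, ← hwt]
    have := hPWT.1 w i
    rwa [hw] at this
  have hp : wt w % 2 = p := by rw [hwt]; exact htp
  have hl : (m ++ [b]).tail = per w (i + 2) (k - 1) := by
    rw [← f1]
    have hk' : k = 1 + (k - 1) := by omega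
    have g1 : per w (i + 1) k = per w (i + 1) (1 + (k - 1)) := by rw [← hk']
    rw [g1, per_add, per_one]
    rfl
  have hr : (b :: m).dropLast = per w i (k - 1) := by
    rw [← f0]
    have hk' : k = (k - 1) + 1 := by omega
    have g1 : per w i k = per w i ((k - 1) + 1) := by rw [← hk']
    rw [g1, per_add, per_one, List.dropLast_concat]
  -- the gadget
  have hS := hP m (by omega) hwm
  rw [← hb, hl, hr] at hS
  have hc : (m ++ b :: m).length = 2 * k - 1 := by
    rw [List.length_append, List.length_cons, hml]
    omega
  have R2 := hTKR V H X k p ε K v (per w (i + 2) (k - 1)) (m ++ b :: m) (per w i (k - 1))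
    (by omega) (per_length ..) (per_length ..) (by rw [hc]; omega) hS
  -- free letters
  have hKn : K ≤ ((⌈K⌉₊ : ℕ) : ℝ) := Nat.le_ceil K
  have P1 := hPER V H X k p ε ⌈K⌉₊ w 0 (i + 2) (by omega) hw hp
  rw [Nat.zero_add, Nat.zero_add] at P1
  have R1 := hREL V H X k p ε ⌈K⌉₊ _ _ _ _ _ K (by omega) hFW P1
    (by rw [Nat.cast_zero, mul_zero, add_zero]; exact hKn)
  have P3 := hPER V H X k p ε ⌈K⌉₊ w i (k - i) (by omega) hw hp
  have e1 : per w (i + (k - i)) (k - 1) = per w 0 (k - 1) := by
    have := per_period w 0 (k - 1)
    rw [hw, Nat.zero_add] at this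
    rw [show i + (k - i) = k by omega]
    exact this
  rw [e1] at P3
  have R3 := hREL V H X k p ε ⌈K⌉₊ _ _ _ _ _ (K - 1) (by omega) hFW P3
    (by rw [Nat.cast_zero, mul_zero, add_zero]; linarith)
  -- composition
  have C1 := hCMO.2.1 V H X ∅ {v} k p ε K (K - 1) _ _ _ _ _ _ _ _ _ (by omega) R1 R2
    (Finset.disjoint_empty_left _) (by
      rw [Finset.card_singleton]
      push_cast
      linarith)
  have C2 := hCMO.2.1 V H X (∅ ∪ {v}) ∅ k p ε (K - 1) K' _ _ _ _ _ _ _ _ _ (by omega) C1 R3
    (Finset.disjoint_empty_right _) (by
      rw [hc, Finset.card_empty]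
      have h3 : ((2 * k * 0 + (2 * k - 1) : ℕ) : ℝ) = 2 * k - 1 := by
        rw [Nat.mul_zero, Nat.zero_add, Nat.cast_sub (by omega)]
        push_cast
        ring
      rw [h3]
      push_cast
      linarith)
  rw [Finset.empty_union, Finset.union_empty] at C2
  have hN : i + 2 + ((m ++ b :: m).length + (k - 1)) + (k - i) = 4 * k := by
    rw [hc]
    omega
  -- the number of letters X
  have hfix : per w (k - 1 + (i + 2)) (2 * k - 1) = m ++ b :: m := by
    have g1 : per w (k - 1 + (i + 2)) (2 * k - 1) = per w (i + 1) ((k - 1) + k) := by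
      have := per_period w (i + 1) (2 * k - 1)
      rw [hw] at this
      rw [show k - 1 + (i + 2) = i + 1 + k by omega, this,
        show 2 * k - 1 = (k - 1) + k by omega]
    have g2 : per w (i + k) k = per w i k := by
      have := per_period w i k
      rwa [hw] at this
    rw [g1, per_add, show i + 1 + (k - 1) = i + k by omega, g2, f0]
  have hA : wt (per w (k - 1) (i + 2)) + (wt (m ++ b :: m) + wt (per w i (k - 1))) +
      wt (per w (i + k - 1) (k - i)) = 4 * t := by
    have g0 : wt (per w (k - 1) (4 * k)) = 4 * t := by
      have := wt_per_mul hPWT w (k - 1) 4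
      rwa [hw, hwt] at this
    have g1 : per w (k - 1) (4 * k) =
        per w (k - 1) ((i + 2) + ((2 * k - 1) + ((k - 1) + (k - i)))) := by
      rw [show (i + 2) + ((2 * k - 1) + ((k - 1) + (k - i))) = 4 * k by omega]
    have g2 : per w (k - 1 + (i + 2) + (2 * k - 1)) (k - 1) = per w i (k - 1) := by
      have := per_period_mul w i (k - 1) 3
      rw [hw] at this
      rw [show k - 1 + (i + 2) + (2 * k - 1) = i + 3 * k by omega]
      exact this
    have g3 : per w (k - 1 + (i + 2) + (2 * k - 1) + (k - 1)) (k - i) =
        per w (i + k - 1) (k - i) := by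
      have := per_period_mul w (i + k - 1) (k - i) 3
      rw [hw] at this
      rw [show k - 1 + (i + 2) + (2 * k - 1) + (k - 1) = i + k - 1 + 3 * k by omega]
      exact this
    rw [← g0, g1, per_add w (k - 1) (i + 2) (2 * k - 1 + (k - 1 + (k - i))),
      per_add w (k - 1 + (i + 2)) (2 * k - 1) (k - 1 + (k - i)), hfix,
      per_add w (k - 1 + (i + 2) + (2 * k - 1)) (k - 1) (k - i), g2, g3]
    simp only [wt_append]
    ring
  rw [hN, hA] at C2
  exact hCMO.2.2 V H X {v} k p ε ε K' K' _ _ _ _ _ _ C2 le_rfl le_rfl (by rw [hc]; omega)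

end Pool.Agent.KK.H55
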